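import Mathlib
import Pool.Agent.Run7.h80.Rem.Tr

/-!
# Rémond's inequality for translates of subtori of codimension one, relative to every group

All varieties are over `AlgebraicClosure ℚ`, and `G` is the torus of dimension `n`. Let `K` be a field of
algebraic numbers, `Γ` any group of points of `G` and `L = K(Γ)`. Let `V` be the translate by the point
`x` of a subtorus of codimension one; let `y ^ a` be the monomial which generates the group of monomials
constant on `V`, so that `V` is the hypersurface `y ^ a = β` with `β = x ^ a`. Suppose that `β` is an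
algebraic integer. We prove Rémond's inequality

  `∑ deg_i(f) h(y_i) ≥ 1 / 400000`

for all nonzero polynomials `f` with coefficients in `L` which vanish on `V` and all points `y` of `V`
(so that `ω_L(V) μ_ess(V) ≥ 1 / 400000`: the obstruction index of a hypersurface is the least degree of a
hypersurface over `L` which contains it), if the minimal polynomial of `β` over `L` has only one
coefficient which is not a rational integer, and this coefficient has degree at least three over `ℚ`;
with the exception of the polynomials `X ^ w + b` and `X ^ (2 m) + b X ^ m ± 1`. The constant is absolute: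
`n`, `K`, `Γ`, the subtorus, the degrees of `β` over `L` and of the coefficient over `ℚ` are arbitrary.

More generally the inequality holds with `1 / (400000 A)` if the minimal polynomial of `β` over `ℤ` is
`T ^ l g(h)`, where `g` is irreducible of degree `N` at least three, `h` is a Laurent polynomial with
integer coefficients not of the form `± T ^ m + δ T ^ (-m) + c`, `δ = 0, 1, -1`, and the degree of `β`
over `ℚ` is at most `A N [L(β) : L]`.

Method. Let `f` vanish on `V`. The sum over every class of monomials of `f` with the same restriction to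
the subtorus vanishes, and in a class the monomials are `y ^ (m_0 + k a)`; so `β` is a zero of a nonzero
polynomial over `L` with exponents `k`, and two exponents in the class differ by at least
`[L(β) : L]`: `deg_i(f) ≥ [L(β) : L] |a_i|` for all `i`. Hence the sum is at least `[L(β) : L] h(β)`.
The lower bound for this is the one of MP_f61260_nt.DecomposableRelative.
-/

set_option autoImplicit false

open Polynomial LaurentPolynomial

namespace Pool.Agent.Results.MP_187c26_nt.DecomposableHypersurfaces

/-- the translate by the point `x` of the subtorus which consists of the points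
`(t^(e_1), ..., t^(e_n))`, where `t^(e_i)` is the product of the `t_j^(e_ij)` -/
def translate {n d : ℕ} (x : Fin n → AlgebraicClosure ℚ) (e : Fin n → Fin d → ℤ) :
    Set (Fin n → AlgebraicClosure ℚ) :=
  {y | ∃ t : Fin d → (AlgebraicClosure ℚ)ˣ,
    ∀ i, y i = x i * ∏ j, (t j : AlgebraicClosure ℚ) ^ e i j}

/-- The exponents of the monomials which are constant on the subtorus are the multiples of `a ≠ 0`: the
subtorus has codimension one. -/
def IsConormal {n d : ℕ} (a : Fin n → ℤ) (e : Fin n → Fin d → ℤ) : Prop :=
  a ≠ 0 ∧ ∀ v : Fin n → ℤ, (∀ j, ∑ i, v i * e i j = 0) ↔ ∃ k : ℤ, v = k • a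

/-- `K(Γ)`, the field generated over `K` by the coordinates of the points of `Γ` -/
noncomputable def coordField (K : IntermediateField ℚ (AlgebraicClosure ℚ)) {n : ℕ}
    (Γ : Subgroup (Fin n → (AlgebraicClosure ℚ)ˣ)) : IntermediateField ℚ (AlgebraicClosure ℚ) :=
  K ⊔ IntermediateField.adjoin ℚ {y | ∃ g ∈ Γ, ∃ i, y = (g i : AlgebraicClosure ℚ)}

/-- the value on the translate by `x` of the monomial with exponent `a` -/
noncomputable def value {n : ℕ} (x : Fin n → AlgebraicClosure ℚ) (a : Fin n → ℤ) :
    AlgebraicClosure ℚ := ∏ i, x i ^ a i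

/-- Every nonzero polynomial `f` over `L` which vanishes on the translate has
`∑ deg_i(f) h(y_i) ≥ c` at all points `y` of the translate. -/
def Remond (L : IntermediateField ℚ (AlgebraicClosure ℚ)) {n d : ℕ}
    (x : Fin n → AlgebraicClosure ℚ) (e : Fin n → Fin d → ℤ) (c : ℝ) : Prop :=
  ∀ f : MvPolynomial (Fin n) (AlgebraicClosure ℚ), f ≠ 0 → (∀ m, f.coeff m ∈ L) →
    (∀ y ∈ translate x e, MvPolynomial.eval y f = 0) →
      ∀ y ∈ translate x e, c ≤ ∑ i, (f.degreeOf i : ℝ) * NumberField.absLogHeight₁ (y i)

/-- The coefficient with index `m` of the minimal polynomial of `z` over `L` has degree at least three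
over `ℚ`, the other coefficients are rational integers, and the polynomial is not `X ^ w + b` and not
`X ^ (2 m) + b X ^ m ± 1`. -/
def OneCoefficient (L : IntermediateField ℚ (AlgebraicClosure ℚ)) (z : AlgebraicClosure ℚ) : Prop :=
  ∃ m : ℕ, (∀ i : ℕ, i ≠ m → ∃ c : ℤ, (minpoly L z).coeff i = c) ∧
    3 ≤ (minpoly ℚ (((minpoly L z).coeff m : L) : AlgebraicClosure ℚ)).natDegree ∧
    (∀ b : L, minpoly L z ≠ X ^ (minpoly L z).natDegree + Polynomial.C b) ∧
    (∀ b : L, minpoly L z ≠ X ^ (2 * m) + Polynomial.C b * X ^ m + 1 ∧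
      minpoly L z ≠ X ^ (2 * m) + Polynomial.C b * X ^ m - 1)

/-- `h = ε T ^ m + δ T ^ (-m) + c` with `ε = ± 1` and `δ = 0, 1, -1`. -/
def Excluded (h : ℤ[T;T⁻¹]) : Prop :=
  ∃ ε δ c m : ℤ, |ε| = 1 ∧ |δ| ≤ 1 ∧
    h = LaurentPolynomial.C ε * LaurentPolynomial.T m +
      LaurentPolynomial.C δ * LaurentPolynomial.T (-m) + LaurentPolynomial.C c

/-- The minimal polynomial of `z` over `ℤ` is `T ^ l g(h)` with an irreducible `g` of degree `N ≥ 3` and
a Laurent polynomial `h` that is not excluded, and its degree is at most `A N` times the degree of `z`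
over `L`. -/
def Decomposable (L : IntermediateField ℚ (AlgebraicClosure ℚ)) (z : AlgebraicClosure ℚ) (A : ℝ) :
    Prop :=
  ∃ (g : ℤ[X]) (h : ℤ[T;T⁻¹]) (l : ℤ), Irreducible g ∧ 3 ≤ g.natDegree ∧ ¬ Excluded h ∧
    toLaurent (minpoly ℤ z) = LaurentPolynomial.T l * aeval h g ∧
    ((minpoly ℤ z).natDegree : ℝ) ≤ A * g.natDegree * (minpoly L z).natDegree

/-- **Rémond's inequality for translates of subtori of codimension one.** -/
theorem result (K : IntermediateField ℚ (AlgebraicClosure ℚ)) {n d : ℕ}
    (Γ : Subgroup (Fin n → (AlgebraicClosure ℚ)ˣ)) (x : Fin n → AlgebraicClosure ℚ)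
    (e : Fin n → Fin d → ℤ) (a : Fin n → ℤ) (hx : ∀ i, x i ≠ 0) (ha : IsConormal a e)
    (hint : IsIntegral ℤ (value x a)) :
    (OneCoefficient (coordField K Γ) (value x a) → Remond (coordField K Γ) x e (1 / 400000)) ∧
    ∀ A : ℝ, 0 < A → Decomposable (coordField K Γ) (value x a) A →
      Remond (coordField K Γ) x e (1 / (400000 * A)) := by
  set L := coordField K Γ with hL
  set β := value x a with hβ
  have hβ0 : β ≠ 0 := Finset.prod_ne_zero_iff.2 fun i _ => zpow_ne_zero _ (hx i)
  have hβq : IsIntegral ℚ β := hint.tower_top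
  have hw : 0 < (minpoly L β).natDegree := minpoly.natDegree_pos hβq.tower_top
  have hw0 : (0 : ℝ) < (minpoly L β).natDegree := by exact_mod_cast hw
  have hfi : Irreducible (minpoly ℤ β) := minpoly.irreducible hint
  have hfd : 0 < (minpoly ℤ β).natDegree := minpoly.natDegree_pos hint
  have hfd0 : (0 : ℝ) < (minpoly ℤ β).natDegree := by exact_mod_cast hfd
  have hht := Pool.Agent.Run7.h80.RemG.ht_eq_MM hint
  have key : ∀ c : ℝ, c ≤ (minpoly L β).natDegree * Pool.Agent.H58P.ht β → Remond L x e c := by
    intro c hc f hf hfL hV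
    exact Pool.Agent.Run7.h80.RemG.translate_ge L x e a hx ha.1 ha.2 hc f hf hfL hV
  constructor
  · rintro ⟨m, h1, h2, h3, h4⟩
    apply key
    have h5 := Pool.Agent.Run7.h80.RemG.rem_final hβq hβ0 h1 h2 h3 h4 hfi (minpoly.aeval ℤ β)
    rw [← hht, mul_div_cancel_left₀ _ hfd0.ne', ← div_div, div_le_iff₀ hw0] at h5
    linarith [h5]
  · rintro A hA ⟨g, h, l, hg, hgN, hex, hF, hdeg⟩
    apply key
    obtain ⟨E, hE, hb⟩ := Pool.Agent.Run7.h80.Sym.full h (by
      intro ε δ c m hε hδ he
      exact hex ⟨ε, δ, c, m, hε, hδ, he⟩)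
    obtain ⟨b1, -⟩ := hb g (minpoly ℤ β) l hg.ne_zero hF
    rw [Pool.Agent.Run7.h80.Sym.outE_irreducible hg hgN hE.2] at b1
    have hpos : 0 < Pool.Agent.Run7.h80.Comp.MM (minpoly ℤ β) := (Real.exp_pos _).trans_le b1
    have h5 : (g.natDegree : ℝ) / 400000 ≤ Real.log (Pool.Agent.Run7.h80.Comp.MM (minpoly ℤ β)) :=
      (Real.le_log_iff_exp_le hpos).2 b1
    rw [← hht] at h5
    have hg0 : (0 : ℝ) < g.natDegree := by
      have : 0 < g.natDegree := by omega
      exact_mod_cast this
    have hhn : 0 ≤ Pool.Agent.H58P.ht β := Pool.Agent.H58R.ht_nonneg _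
    have h6 : (g.natDegree : ℝ) / 400000 ≤
        A * g.natDegree * (minpoly L β).natDegree * Pool.Agent.H58P.ht β :=
      h5.trans (mul_le_mul_of_nonneg_right hdeg hhn)
    rw [div_le_iff₀ (by positivity)]
    have h7 : (g.natDegree : ℝ) * 1 ≤ g.natDegree *
        (400000 * (A * (minpoly L β).natDegree * Pool.Agent.H58P.ht β)) := by
      rw [div_le_iff₀ (by norm_num)] at h6
      linarith [h6]
    have h8 := le_of_mul_le_mul_left h7 hg0
    linarith [h8]

end Pool.Agent.Results.MP_187c26_nt.DecomposableHypersurfaces
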