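import Mathlib
import Pool.Agent.Run7.h22.MainN
import Pool.Agent.Run7.h22.Rel10

/-!
# Rémond's inequality for translates of subtori by points of fields with few complex conjugations

The subvarieties of the torus `G` of dimension `n` are the translates `V` of subtori by points `x` whose
coordinates are nonzero elements of a Galois number field `K` (with an embedding in
`AlgebraicClosure ℚ`). Let `k` be the number of the complex conjugations of `K`, that is of the
automorphisms `σ` of `K` such that `φ ∘ σ` is the complex conjugate of `φ` for some embedding `φ` of `K`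
in `ℂ`. Assume that no Laurent monomial with nonzero exponent is constant on `V` with a value that has
absolute value one at all embeddings (if the coordinates of `x` are units this means that `V` is
contained in no proper torsion subvariety of `G`). Then for every hypersurface `f = 0` (over any field)
which contains `V` and for every point `y` of `V`

  `∑ deg_i(f) h(y_i) ≥ c / (k exp (9 √(log (2 k))))`

with an absolute constant `c > 0`; so the degree of the hypersurface times the essential minimum of `V`
is at least the right side, which does not depend on the degree of the field of definition of `V`, on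
`n` and on the subtorus. This is Rémond's inequality for all groups `Γ`, if the obstruction index
relative to `K(Γ)` is larger than the one relative to `AlgebraicClosure ℚ` by a factor which is at least
the denominator.
-/

set_option autoImplicit false

open NumberField Module

namespace Pool.Agent.Results.MP_187c26_nt.FewConjugationsTranslates

/-- the translate by the point `x` of the subtorus which consists of the points
`(t^(e_1), ..., t^(e_n))`, where `t^(e_i)` is the product of the `t_j^(e_ij)` -/
def translate {n d : ℕ} (x : Fin n → AlgebraicClosure ℚ) (e : Fin n → Fin d → ℤ) :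
    Set (Fin n → AlgebraicClosure ℚ) :=
  {y | ∃ t : Fin d → (AlgebraicClosure ℚ)ˣ,
    ∀ i, y i = x i * ∏ j, (t j : AlgebraicClosure ℚ) ^ e i j}

/-- the polynomial `f` is not zero and vanishes on `V` -/
def VanishesOn {n : ℕ} (f : MvPolynomial (Fin n) (AlgebraicClosure ℚ))
    (V : Set (Fin n → AlgebraicClosure ℚ)) : Prop :=
  f ≠ 0 ∧ ∀ y ∈ V, MvPolynomial.eval y f = 0

/-- the sum of the `deg_i(f) h(y_i)`, where `deg_i` is the degree in the `i`-th variable and `h` is the
absolute logarithmic Weil height -/
noncomputable def weighted {n : ℕ} (f : MvPolynomial (Fin n) (AlgebraicClosure ℚ))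
    (y : Fin n → AlgebraicClosure ℚ) : ℝ :=
  ∑ i, (f.degreeOf i : ℝ) * NumberField.absLogHeight₁ (y i)

section

variable {K : Type} [Field K] [NumberField K]

variable (K) in
/-- the complex conjugations of `K`: the automorphisms `σ` of `K` such that `φ ∘ σ` is the complex
conjugate of `φ` for some embedding `φ` of `K` in `ℂ` -/
def complexConjugations : Set (K ≃ₐ[ℚ] K) :=
  {σ | ∃ φ : K →ₐ[ℚ] ℂ, ∀ x, φ (σ x) = starRingEnd ℂ (φ x)}

variable (K) in
/-- the number of the complex conjugations of `K` -/
noncomputable def k : ℕ := (complexConjugations K).ncard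

variable (K) in
/-- the number `k exp (9 √(log (2 k)))`, where `k = k K` -/
noncomputable def cost : ℝ := k K * Real.exp (9 * Real.sqrt (Real.log (2 * k K)))

/-- no Laurent monomial with nonzero exponent is constant on the translate with a value which has
absolute value one at all embeddings -/
def IsTransverse {n d : ℕ} (x : Fin n → K) (e : Fin n → Fin d → ℤ) : Prop :=
  ∀ v : Fin n → ℤ, v ≠ 0 → (∀ j, ∑ i, v i * e i j = 0) → ∃ φ : K →+* ℂ, ‖φ (∏ i, x i ^ v i)‖ ≠ 1

end

/-- **Rémond's inequality for translates of subtori by points of fields with few complex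
conjugations.** There is an absolute constant `c > 0` such that for every Galois number field `K`, every
embedding `ι` of `K` in `AlgebraicClosure ℚ`, every point `x` with nonzero coordinates in `K` and
every subtorus (given by `e`) such that the translate `V` of it by `ι x` is transverse: if a
polynomial `f` vanishes on `V` then `∑ deg_i(f) h(y_i) ≥ c / cost K` for all `y` in `V`. -/
theorem result : ∃ c : ℝ, 0 < c ∧ ∀ (K : Type) [Field K] [NumberField K] [IsGalois ℚ K],
    ∀ (n d : ℕ) (ι : K →+* AlgebraicClosure ℚ) (x : Fin n → K) (e : Fin n → Fin d → ℤ),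
    (∀ i, x i ≠ 0) → IsTransverse x e →
    ∀ f : MvPolynomial (Fin n) (AlgebraicClosure ℚ), VanishesOn f (translate (fun i => ι (x i)) e) →
    ∀ y ∈ translate (fun i => ι (x i)) e, c / cost K ≤ weighted f y := by
  obtain ⟨A₀, hA₀, h⟩ := Pool.Agent.Run7.h22.field_gen
  refine ⟨1 / A₀, by positivity, ?_⟩
  intro K _ _ _ n d ι x e hx htr f ⟨hf, hV⟩
  have hN0 : (0:ℝ) < finrank ℚ K := by exact_mod_cast (finrank_pos : 0 < finrank ℚ K)
  refine Pool.Agent.Run7.h22.of_monomials _ (fun i => ι (x i)) e
    (fun i => (map_ne_zero ι).mpr (hx i)) ?_ f hf hV
  intro v hv hve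
  have hmap : ∏ i, ι (x i) ^ v i = ι (∏ i, x i ^ v i) := by
    rw [map_prod]
    exact Finset.prod_congr rfl fun i _ => (map_zpow₀ ι _ _).symm
  rw [hmap, Pool.Agent.Run7.h22.absLogHeight₁_map]
  obtain ⟨ψ, hψ⟩ := htr v hv hve
  set β := ∏ i, x i ^ v i with hβ
  have hβ0 : β ≠ 0 := Finset.prod_ne_zero_iff.mpr fun i _ => zpow_ne_zero _ (hx i)
  have h2 : (finrank ℚ K : ℝ) ≤ A₀ * cost K * Height.logHeight₁ β :=
    h K β hβ0 ⟨RingHom.toRatAlgHom ψ, hψ⟩
  have hcost : 0 ≤ cost K := by unfold cost; positivity
  have hcost1 : 0 < cost K := by
    rcases hcost.eq_or_lt with h3 | h3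
    · rw [← h3, mul_zero, zero_mul] at h2
      linarith
    · exact h3
  rw [div_div, div_le_div_iff₀ (by positivity) hN0, one_mul]
  linarith

end Pool.Agent.Results.MP_187c26_nt.FewConjugationsTranslates
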