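import Mathlib
import Pool.Agent.Run7.h22.Rel10

/-!
# Rémond's inequality for translates of subtori by points with few Frobenius automorphisms

The subvarieties of the torus `G` of dimension `n` are the translates `V` of subtori by points `x` whose
coordinates are units of a Galois number field `K` (with an embedding in `AlgebraicClosure ℚ`). Let `p`
be a prime number that is unramified in `K` and let `a ≥ 1`. Let `E` be any subfield of `K` that is
normal over `ℚ`, let `k` be the number of the automorphisms of `E` that are `a`-th powers of Frobenius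
automorphisms above `p`, and let `x` have degree at most `D` over the field generated by `E` and the
roots of unity of `K` of order prime to `p`. If `V` is contained in no proper torsion subvariety of `G`
then for every hypersurface `f = 0` (over any field) which contains `V` and for every point `y` of `V`

  `∑ deg_i(f) h(y_i) ≥ c / (p ^ (a + 2) D ^ 3 k exp (17 √(log (2 k) log (2 D))))`

with an absolute constant `c > 0`; so the degree of the hypersurface times the essential minimum of `V`
is at least the right side, which does not depend on the degree of the field of definition of `V`, on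
`n` and on the subtorus. This is Rémond's inequality for all groups `Γ`, if the obstruction index
relative to `K(Γ)` is larger than the one relative to `AlgebraicClosure ℚ` by a factor which is at least
the denominator. The number `D ^ 3 k` can be as large as a power of this factor with exponent less than
one.
-/

set_option autoImplicit false

open NumberField Module

namespace Pool.Agent.Results.MP_187c26_nt.FewFrobeniusTranslates

/-- the number `p ^ (a + 2) D ^ 3 k exp (17 √(log (2 k) log (2 D)))` -/
noncomputable def cost (p a D k : ℕ) : ℝ :=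
  (p : ℝ) ^ (a + 2) * (D : ℝ) ^ 3 * k *
    Real.exp (17 * Real.sqrt (Real.log (2 * k) * Real.log (2 * D)))

/-- the translate by the point `x` of the subtorus which consists of the points
`(t^(e_1), ..., t^(e_n))`, where `t^(e_i)` is the product of the `t_j^(e_ij)` -/
def translate {n d : ℕ} (x : Fin n → AlgebraicClosure ℚ) (e : Fin n → Fin d → ℤ) :
    Set (Fin n → AlgebraicClosure ℚ) :=
  {y | ∃ t : Fin d → (AlgebraicClosure ℚ)ˣ,
    ∀ i, y i = x i * ∏ j, (t j : AlgebraicClosure ℚ) ^ e i j}

/-- the polynomial `f` is not zero and vanishes on `V` -/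
def VanishesOn {n : ℕ} (f : MvPolynomial (Fin n) (AlgebraicClosure ℚ))
    (V : Set (Fin n → AlgebraicClosure ℚ)) : Prop :=
  f ≠ 0 ∧ ∀ y ∈ V, MvPolynomial.eval y f = 0

/-- the sum of the `deg_i(f) h(y_i)`, where `deg_i` is the degree in the `i`-th variable and `h` is the
absolute logarithmic Weil height -/
noncomputable def weighted {n : ℕ} (f : MvPolynomial (Fin n) (AlgebraicClosure ℚ))
    (y : Fin n → AlgebraicClosure ℚ) : ℝ :=
  ∑ i, (f.degreeOf i : ℝ) * NumberField.absLogHeight₁ (y i)

section

variable {K : Type} [Field K] [NumberField K]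

variable (K) in
/-- the number `p` is not contained in the square of a prime ideal of the number field `K`; for
a prime number `p` this means that `p` is unramified in `K` -/
def Unramified (p : ℕ) : Prop :=
  ∀ 𝔓 : Ideal (𝓞 K), 𝔓.IsPrime → (p : 𝓞 K) ∈ 𝔓 → (p : 𝓞 K) ∉ 𝔓 ^ 2

/-- the subfield `E` is normal over `ℚ` -/
def IsNormal (E : IntermediateField ℚ K) : Prop := Normal ℚ E

/-- the automorphisms of a subfield `E` which are congruent to the map `x ↦ x ^ (p ^ a)` modulo some
prime ideal of `E` above `p`; if `p` is unramified they are the `a`-th powers of the Frobenius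
automorphisms above `p` -/
def frobenii (E : IntermediateField ℚ K) (p a : ℕ) : Set (E ≃ₐ[ℚ] E) :=
  {σ | ∃ 𝔓 : Ideal (𝓞 E), 𝔓.IsPrime ∧ (p : 𝓞 E) ∈ 𝔓 ∧ ∀ x : 𝓞 E, σ • x - x ^ (p ^ a) ∈ 𝔓}

/-- the number of these automorphisms -/
noncomputable def k (E : IntermediateField ℚ K) (p a : ℕ) : ℕ := (frobenii E p a).ncard

/-- the field generated by `E` and the `p`-th powers of the roots of unity of `K` (if `p` is
unramified, these are the roots of unity of order prime to `p`, except for signs) -/
def withRoots (E : IntermediateField ℚ K) (p : ℕ) : IntermediateField ℚ K :=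
  E ⊔ IntermediateField.adjoin ℚ {x | ∃ ζ : K, (∃ m : ℕ, 0 < m ∧ ζ ^ m = 1) ∧ x = ζ ^ p}

/-- the degree of the point `x` over the field `F` -/
noncomputable def pointDegree (F : IntermediateField ℚ K) {n : ℕ} (x : Fin n → K) : ℕ :=
  finrank F (IntermediateField.adjoin F (Set.range x))

/-- the coordinates of `x` are units of the ring of integers -/
def IsUnitPoint {n : ℕ} (x : Fin n → K) : Prop :=
  ∀ i, x i ≠ 0 ∧ IsIntegral ℤ (x i) ∧ IsIntegral ℤ (x i)⁻¹

/-- no Laurent monomial with nonzero exponent is constant on the translate with a root of unity as its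
value: the translate is contained in no proper torsion subvariety of the torus -/
def IsTransverse {n d : ℕ} (x : Fin n → K) (e : Fin n → Fin d → ℤ) : Prop :=
  ∀ v : Fin n → ℤ, v ≠ 0 → (∀ j, ∑ i, v i * e i j = 0) → ∀ m : ℕ, 0 < m → (∏ i, x i ^ v i) ^ m ≠ 1

end

/-- **Rémond's inequality for translates of subtori by points with few Frobenius automorphisms.**
There is an absolute constant `c > 0` such that for every prime number `p`, every `a ≥ 1`, every Galois
number field `K` in which `p` is unramified, every embedding `φ` of `K` in `AlgebraicClosure ℚ`, every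
point `x` whose coordinates are units of `K`, every subtorus (given by `e`) such that the translate
`V` of it by `φ x` is transverse, every subfield `E` of `K` which is normal over `ℚ` and all `D` such
that `x` has degree at most `D` over `withRoots E p`: if a polynomial `f` vanishes on `V` then
`∑ deg_i(f) h(y_i) ≥ c / cost p a D (k E p a)` for all `y` in `V`. -/
theorem result : ∃ c : ℝ, 0 < c ∧ ∀ p a : ℕ, p.Prime → 1 ≤ a → ∀ (K : Type) [Field K] [NumberField K]
    [IsGalois ℚ K], Unramified K p → ∀ (n d : ℕ) (φ : K →+* AlgebraicClosure ℚ) (x : Fin n → K)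
    (e : Fin n → Fin d → ℤ), IsUnitPoint x → IsTransverse x e →
    ∀ E : IntermediateField ℚ K, IsNormal E → ∀ D : ℕ, pointDegree (withRoots E p) x ≤ D →
    ∀ f : MvPolynomial (Fin n) (AlgebraicClosure ℚ), VanishesOn f (translate (fun i => φ (x i)) e) →
    ∀ y ∈ translate (fun i => φ (x i)) e, c / cost p a D (k E p a) ≤ weighted f y := by
  obtain ⟨A₀, hA₀, h⟩ := Pool.Agent.Run7.h22.rel_main
  refine ⟨1 / A₀, by positivity, ?_⟩
  intro p a hp ha K _ _ _ hunr n d φ x e hx htr E hE D hD f ⟨hf, hV⟩
  have hE' : Normal ℚ E := hE
  have hN0 : (0:ℝ) < finrank ℚ K := by exact_mod_cast (finrank_pos : 0 < finrank ℚ K)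
  have hnor : (Pool.Agent.Run7.h22.NE p E).Normal := Pool.Agent.Run7.h22.NE_normal p E
  refine Pool.Agent.Run7.h22.of_monomials _ (fun i => φ (x i)) e
    (fun i => (map_ne_zero φ).mpr (hx i).1) ?_ f hf hV
  intro v hv hve
  have hmap : ∏ i, φ (x i) ^ v i = φ (∏ i, x i ^ v i) := by
    rw [map_prod]
    exact Finset.prod_congr rfl fun i _ => (map_zpow₀ φ _ _).symm
  rw [hmap, Pool.Agent.Run7.h22.absLogHeight₁_map]
  set β := ∏ i, x i ^ v i with hβ
  have hU : Pool.Agent.Run7.h22.IsU β := Pool.Agent.Run7.h22.isU_prod hx v
  have hroot : ∀ m : ℕ, 0 < m → β ^ m ≠ 1 := htr v hv hve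
  have hDβ : (minpoly (withRoots E p) β).natDegree ≤ D :=
    (Pool.Agent.Run7.h22.degree_monomial x v).trans hD
  have h1 := h K p a hp ha hunr (Pool.Agent.Run7.h22.NE p E) β hU hroot D
    (k E p a) ((Pool.Agent.Run7.h22.orb_le_degree _ _ (Pool.Agent.Run7.h22.NE_le p E) β).trans hDβ)
    (Pool.Agent.Run7.h22.NE_count hp hunr E)
  have h2 : (finrank ℚ K : ℝ) ≤ A₀ * cost p a D (k E p a) * Height.logHeight₁ β := by
    rw [Pool.Agent.Run7.h22.logHeight₁_eq_lam hU.2.1]
    unfold cost
    calc (finrank ℚ K : ℝ) ≤ _ := h1
      _ = _ := by ring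
  have hcost : 0 ≤ cost p a D (k E p a) := by unfold cost; positivity
  have hcost1 : 0 < cost p a D (k E p a) := by
    rcases hcost.eq_or_lt with h3 | h3
    · rw [← h3, mul_zero, zero_mul] at h2
      linarith
    · exact h3
  rw [div_div, div_le_div_iff₀ (by positivity) hN0, one_mul]
  linarith

end Pool.Agent.Results.MP_187c26_nt.FewFrobeniusTranslates
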