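import Pool.Agent.Results.MP_187c26_nt.RadicalTranslates
import Pool.Agent.Results.MP_f61260_nt.PositiveDensityRadicals

/-!
# Rémond's inequality for groups of radicals whose orders are composed of a positive proportion of all primes

Let `W` be the set of the primes `p` with `p² ∤ 2^(p-1) - 1`. It has positive lower density
(`Run7.h361.density`, unconditional). For a set `P ⊆ W` of primes we consider the group `Λ` generated
by compatible roots `2^(1/n)`, for all `n` composed of primes in `P` (with arbitrary exponents), and by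
roots of unity. `Γ = Λ ^ n` is a subgroup of finite rank `n` of the torus `G` of dimension `n`. We prove
Rémond's inequality (in the form of an inequality against every hypersurface, over any field, which
contains the subvariety) for all translates of subtori of `G` by points with coordinates in `ℚ(Γ)`.

All fields are subfields of `AlgebraicClosure ℚ`; subgroups of the multiplicative group are
subgroups of the unit group of `AlgebraicClosure ℚ`. The definitions `translate` (of the subtorus of the
points `(t^(e_1), ..., t^(e_n))` by `x`), `IsTransverse` (no monomial with nonzero exponent is constant on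
the translate with value in the division group, that is, no proper torsion subvariety relative to
`Λ ^ n` contains it), `power` (`Λ ^ n`) and `coordField` (`ℚ(Λ ^ n)`) are those of the starting file
`MP_187c26_nt.RadicalTranslates`.
-/

set_option autoImplicit false

namespace Pool.Agent.Results.MP_187c26_nt.PositiveDensityTranslates

open Pool.Agent.Results.MP_187c26_nt.RadicalTranslates
open Pool.Agent.Results.MP_f61260_nt.MixedRadicalFields (InDivisionGroup)
open Pool.Agent.Results.MP_f61260_nt.PositiveDensityRadicals (W IsRootSystem Composed two radicalField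
  smoothRootField UnramifiedAt)

/-- The group generated by the roots of unity of order composed of primes in `S` and by the roots
`2^(1/n)`, `n` composed of primes in `P`. -/
noncomputable def radicals (S P : Set ℕ) (r : ℕ → AlgebraicClosure ℚ) :
    Subgroup (AlgebraicClosure ℚ)ˣ :=
  Subgroup.closure {g | (∃ m ∈ Composed S, g ^ m = 1) ∨
    ∃ m ∈ Composed P, (g : AlgebraicClosure ℚ) = r m}

lemma radicals_eq {S P : Set ℕ} (hP : P ⊆ W) {r : ℕ → AlgebraicClosure ℚ} {a : Fin 1 → ℕ}
    (ha : a = fun _ => 2) {P' : Fin 1 → Set ℕ} (hP' : P' = fun _ => P)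
    {ρ : Fin 1 → ℕ → AlgebraicClosure ℚ} (hρ : ρ = fun _ => r) :
    radicals S P r = radicalGroup S a P' ρ := by
  unfold radicals radicalGroup
  congr 1
  ext g
  constructor
  · rintro (⟨m, hm, hg⟩ | ⟨m, hm, hg⟩)
    · exact Or.inl ⟨m, hm, hg⟩
    · refine Or.inr ⟨0, m, ?_, by rw [hρ]; exact hg⟩
      rw [ha, hP']
      exact MP_7ab245_nt.RadicalsPositiveDensity.mem_exponents hP hm
  · rintro (⟨m, hm, hg⟩ | ⟨i, m, hm, hg⟩)
    · exact Or.inl ⟨m, hm, hg⟩
    · rw [ha, hP'] at hm
      rw [hρ] at hg
      exact Or.inr ⟨m, ⟨hm.1, fun p hp h => (hm.2 p hp h).1⟩, hg⟩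

/-- **Rémond's inequality for radicals whose orders are composed of a positive proportion of all primes.**
Let `W` be the set of the primes `p` with `p² ∤ 2^(p-1) - 1`.

(0) For all large `x` at least `x / (50 log x)` primes `p ≤ x` belong to `W`.

(A) Let `K` be a number field, `Γ` a finitely generated subgroup of `ℚ̄*` and `P₀` a finite set of
primes. There is `c > 0` such that for every field `B` with
`Γ ⊂ B ⊂ K(μ_∞, Γ^{1/m} : m composed of primes in P₀)`, every subset `P` of `W` such that `2` and the
primes in `P` are unramified in `B`, every translate `V` of a subtorus of the torus of any dimension by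
a point with coordinates in the field generated over `B` by compatible roots `2^(1/m)` for all `m`
composed of primes in `P`, transverse relative to `Γ⟨2⟩`, every nonzero polynomial `f` with algebraic
coefficients which vanishes on `V` and every point `y` of `V` the sum of the `deg_i(f) h(y_i)` is at
least `c`.

(B) There is an absolute constant `c > 0` such that the same holds for every `P ⊆ W`, every set `S` of
odd primes disjoint from `P`, the group `Λ` generated by the roots of unity of order composed of primes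
in `S` and by the roots `2^(1/m)`, `m` composed of primes in `P`, and all translates of subtori by points
with coordinates in `ℚ(Λ^n)` which are transverse relative to `Λ`.

(C) In particular (subtori of dimension zero) all points `x` of the torus of dimension `n` with
coordinates in `ℚ(Λ^n)` for which no product `∏ x_i^(v_i)`, `v ≠ 0`, is in the division group of `Λ`
satisfy `∑ deg_i(f) h(x_i) ≥ c` for all nonzero polynomials `f` with algebraic coefficients and
`f(x) = 0`. -/
theorem result :
    (∃ x₀ : ℕ, ∀ x : ℕ, x₀ ≤ x →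
      (x : ℝ) / (50 * Real.log x) ≤ ({p : ℕ | p ≤ x ∧ p ∈ W}.ncard : ℝ)) ∧
    (∀ (K : IntermediateField ℚ (AlgebraicClosure ℚ)), FiniteDimensional ℚ K →
      ∀ (Γ : Subgroup (AlgebraicClosure ℚ)ˣ), Γ.FG →
      ∀ (P₀ : Finset ℕ), (∀ p ∈ P₀, p.Prime) →
      ∃ c : ℝ, 0 < c ∧
        ∀ B : IntermediateField ℚ (AlgebraicClosure ℚ), B ≤ smoothRootField K Γ P₀ →
        (∀ g ∈ Γ, (g : AlgebraicClosure ℚ) ∈ B) →
        ∀ P ⊆ W, UnramifiedAt B (P ∪ {2}) → ∀ r, IsRootSystem r →
          ∀ (n d : ℕ) (x : Fin n → AlgebraicClosure ℚ) (e : Fin n → Fin d → ℤ),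
            (∀ i, x i ∈ radicalField B P r) → IsTransverse (Γ ⊔ two) x e →
            ∀ f : MvPolynomial (Fin n) (AlgebraicClosure ℚ), f ≠ 0 →
              (∀ y ∈ translate x e, MvPolynomial.eval y f = 0) →
              ∀ y ∈ translate x e,
                c ≤ ∑ i, (f.degreeOf i : ℝ) * NumberField.absLogHeight₁ (y i)) ∧
    (∃ c : ℝ, 0 < c ∧ ∀ P ⊆ W, ∀ S : Set ℕ, Disjoint P S → 2 ∉ S → ∀ r, IsRootSystem r →
      ∀ (n d : ℕ) (x : Fin n → AlgebraicClosure ℚ) (e : Fin n → Fin d → ℤ),
        (∀ i, x i ∈ coordField (power n (radicals S P r))) →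
        IsTransverse (radicals S P r) x e →
        ∀ f : MvPolynomial (Fin n) (AlgebraicClosure ℚ), f ≠ 0 →
          (∀ y ∈ translate x e, MvPolynomial.eval y f = 0) →
          ∀ y ∈ translate x e,
            c ≤ ∑ i, (f.degreeOf i : ℝ) * NumberField.absLogHeight₁ (y i)) ∧
    (∃ c : ℝ, 0 < c ∧ ∀ P ⊆ W, ∀ S : Set ℕ, Disjoint P S → 2 ∉ S → ∀ r, IsRootSystem r →
      ∀ (n : ℕ) (x : Fin n → AlgebraicClosure ℚ), (∀ i, x i ≠ 0) →
        (∀ i, x i ∈ coordField (power n (radicals S P r))) →
        (∀ v : Fin n → ℤ, InDivisionGroup (radicals S P r) (∏ i, x i ^ v i) → v = 0) →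
        ∀ f : MvPolynomial (Fin n) (AlgebraicClosure ℚ), f ≠ 0 → MvPolynomial.eval x f = 0 →
          c ≤ ∑ i, (f.degreeOf i : ℝ) * NumberField.absLogHeight₁ (x i)) := by
  have hB : ∃ c : ℝ, 0 < c ∧ ∀ P ⊆ W, ∀ S : Set ℕ, Disjoint P S → 2 ∉ S → ∀ r, IsRootSystem r →
      ∀ (n d : ℕ) (x : Fin n → AlgebraicClosure ℚ) (e : Fin n → Fin d → ℤ),
        (∀ i, x i ∈ coordField (power n (radicals S P r))) →
        IsTransverse (radicals S P r) x e →
        ∀ f : MvPolynomial (Fin n) (AlgebraicClosure ℚ), f ≠ 0 →
          (∀ y ∈ translate x e, MvPolynomial.eval y f = 0) →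
          ∀ y ∈ translate x e,
            c ≤ ∑ i, (f.degreeOf i : ℝ) * NumberField.absLogHeight₁ (y i) := by
    obtain ⟨a, ha⟩ : ∃ a : Fin 1 → ℕ, a = fun _ => 2 := ⟨_, rfl⟩
    obtain ⟨c, hc, h⟩ := RadicalTranslates.result.2
    refine ⟨c / 4000 ^ 1, by positivity, fun P hP S hPS hS2 r hr n d x e hx htr f hf hV => ?_⟩
    rw [radicals_eq hP ha rfl rfl] at hx htr
    refine h 1 a (fun _ => P) (fun _ => r)
      (MP_f61260_nt.PositiveDensityRadicals.Aux.data hP hr ha rfl rfl) S (fun i => ?_) n d x e
      hx htr f hf hV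
    rw [Set.disjoint_left]
    intro p hpS hp
    rcases MP_f61260_nt.PositiveDensityRadicals.Aux.primesOf_sub ha rfl i hp with h1 | h1
    · exact Set.disjoint_left.1 hPS h1 hpS
    · rw [Set.mem_singleton_iff.1 h1] at hpS
      exact hS2 hpS
  obtain ⟨a, ha⟩ : ∃ a : Fin 1 → ℕ, a = fun _ => 2 := ⟨_, rfl⟩
  refine ⟨Run7.h361.density, ?_, hB, ?_⟩
  · intro K hK Γ hΓ P₀ hP₀
    obtain ⟨c, hc, h⟩ := RadicalTranslates.result.1 K hK Γ hΓ P₀ hP₀
    refine ⟨c / 4000 ^ 1, by positivity, fun B hB hΓB P hP hunr r hr n d x e hx htr f hf hV => ?_⟩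
    refine h B hB hΓB 1 a (fun _ => P) (fun _ => r)
      (MP_f61260_nt.PositiveDensityRadicals.Aux.data hP hr ha rfl rfl) (fun i => ?_) n d x e
      (fun i => MP_f61260_nt.PositiveDensityRadicals.Aux.field_le hP B r ha rfl rfl (hx i))
      (htr.mono (sup_le_sup le_rfl (MP_f61260_nt.PositiveDensityRadicals.Aux.group_le ha))) f hf hV
    intro F hF hnf p hp
    exact hunr F hF hnf p (MP_f61260_nt.PositiveDensityRadicals.Aux.primesOf_sub ha rfl i hp)
  · obtain ⟨c, hc, h⟩ := hB
    refine ⟨c, hc, fun P hP S hPS hS2 r hr n x hx0 hx hdiv f hf hfx => ?_⟩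
    have htr : ∀ y ∈ translate x (fun _ (j : Fin 0) => j.elim0), y = x := by
      rintro y ⟨t, ht⟩
      funext i
      rw [ht i, Finset.univ_eq_empty, Finset.prod_empty, mul_one]
    have hmem : x ∈ translate x (fun _ (j : Fin 0) => j.elim0) :=
      ⟨fun j => j.elim0, fun i => by rw [Finset.univ_eq_empty, Finset.prod_empty, mul_one]⟩
    exact h P hP S hPS hS2 r hr n 0 x (fun _ j => j.elim0) hx
      ⟨hx0, fun v _ hv => hdiv v hv⟩ f hf (fun y hy => by rw [htr y hy]; exact hfx) x hmem

end Pool.Agent.Results.MP_187c26_nt.PositiveDensityTranslates
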